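import Pool.Agent.Run7.h282.TS.Iface

/-!
Piece `COV` of the project TS (MP_ea5d3c_co), by greedy choice.
-/

set_option autoImplicit false

open Finset Filter

namespace Run7.h99.TS

open Run7.h282.TS

theorem greedy (M k r : ℕ) (hr : r ≤ k) (hk : k ≤ M) (N : ℕ) :
    ∃ H : Finset (Finset (Fin M)), H ⊆ powersetCard r (univ : Finset (Fin M)) ∧ H.card ≤ N ∧
      (((powersetCard k (univ : Finset (Fin M))).filter fun S => ∀ e ∈ H, ¬ e ⊆ S).card : ℝ) ≤
        (1 - (k.choose r : ℝ) / (M.choose r : ℝ)) ^ N * (M.choose k : ℝ) := by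
  have ha : 0 < M.choose r := Nat.choose_pos (hr.trans hk)
  have ha' : (0 : ℝ) < M.choose r := by exact_mod_cast ha
  induction N with
  | zero =>
      refine ⟨∅, empty_subset _, le_refl _, ?_⟩
      simp
  | succ N ih =>
      obtain ⟨H, hH, hc, hU⟩ := ih
      set U := (powersetCard k (univ : Finset (Fin M))).filter fun S => ∀ e ∈ H, ¬ e ⊆ S with hUdef
      have hUk : ∀ S ∈ U, S.card = k := fun S hS =>
        (mem_powersetCard.1 (mem_filter.1 hS).1).2
      have hdc : ∑ e ∈ powersetCard r (univ : Finset (Fin M)), (U.filter fun S => e ⊆ S).card =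
          U.card * k.choose r := by
        have h1 : ∑ e ∈ powersetCard r (univ : Finset (Fin M)), (U.filter fun S => e ⊆ S).card =
            ∑ S ∈ U, ((powersetCard r (univ : Finset (Fin M))).filter fun e => e ⊆ S).card := by
          simp only [card_filter]
          exact sum_comm
        rw [h1, sum_const_nat]
        intro S hS
        have h2 : (powersetCard r (univ : Finset (Fin M))).filter (fun e => e ⊆ S) =
            powersetCard r S := by
          ext e
          simp only [mem_filter, mem_powersetCard, subset_univ, true_and]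
          exact ⟨fun h => ⟨h.2, h.1⟩, fun h => ⟨h.2, h.1⟩⟩
        rw [h2, card_powersetCard, hUk S hS]
      have hne : (powersetCard r (univ : Finset (Fin M))).Nonempty := by
        rw [← card_pos, card_powersetCard, card_univ, Fintype.card_fin]
        exact ha
      obtain ⟨e, he, hle⟩ : ∃ e ∈ powersetCard r (univ : Finset (Fin M)),
          (U.card : ℝ) * (k.choose r : ℝ) / (M.choose r : ℝ) ≤
            ((U.filter fun S => e ⊆ S).card : ℝ) := by
        refine exists_le_of_sum_le hne ?_
        rw [sum_const, card_powersetCard, card_univ, Fintype.card_fin, nsmul_eq_mul,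
          mul_div_cancel₀ _ ha'.ne', ← Nat.cast_sum, hdc]
        push_cast
        exact le_refl _
      refine ⟨insert e H, ?_, (card_insert_le _ _).trans (by omega), ?_⟩
      · intro x hx
        rcases mem_insert.1 hx with rfl | hx
        · exact he
        · exact hH hx
      · have h3 : (powersetCard k (univ : Finset (Fin M))).filter
            (fun S => ∀ e' ∈ insert e H, ¬ e' ⊆ S) = U.filter fun S => ¬ e ⊆ S := by
          ext S
          simp only [hUdef, mem_filter, mem_insert, forall_eq_or_imp]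
          tauto
        rw [h3]
        have h4 : (U.filter fun S => e ⊆ S).card + (U.filter fun S => ¬ e ⊆ S).card = U.card :=
          card_filter_add_card_filter_not _
        have h4' : ((U.filter fun S => e ⊆ S).card : ℝ) + ((U.filter fun S => ¬ e ⊆ S).card : ℝ) =
            U.card := by exact_mod_cast h4
        have h5 : (0 : ℝ) ≤ 1 - (k.choose r : ℝ) / (M.choose r : ℝ) := by
          rw [sub_nonneg, div_le_one ha']
          exact_mod_cast Nat.choose_le_choose r hk
        calc ((U.filter fun S => ¬ e ⊆ S).card : ℝ)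
            ≤ U.card - (U.card : ℝ) * (k.choose r : ℝ) / (M.choose r : ℝ) := by linarith
          _ = (1 - (k.choose r : ℝ) / (M.choose r : ℝ)) * U.card := by ring
          _ ≤ (1 - (k.choose r : ℝ) / (M.choose r : ℝ)) *
              ((1 - (k.choose r : ℝ) / (M.choose r : ℝ)) ^ N * (M.choose k : ℝ)) :=
              mul_le_mul_of_nonneg_left hU h5
          _ = _ := by ring

theorem t_COV : S_COV := by
  intro M k r hr hk
  have ha : 0 < M.choose r := Nat.choose_pos (hr.trans hk)
  have ha' : (0 : ℝ) < M.choose r := by exact_mod_cast ha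
  have hb : 0 < k.choose r := Nat.choose_pos hr
  have hb' : (0 : ℝ) < k.choose r := by exact_mod_cast hb
  have hK : 0 < M.choose k := Nat.choose_pos hk
  have hK' : (1 : ℝ) ≤ M.choose k := by exact_mod_cast hK
  set L := (M.choose r : ℝ) / (k.choose r : ℝ) * Real.log (M.choose k : ℝ) with hL
  have hL0 : 0 ≤ L := mul_nonneg (by positivity) (Real.log_nonneg hK')
  obtain ⟨H, hH, hc, hU⟩ := greedy M k r hr hk (⌊L⌋₊ + 1)
  refine ⟨H, ⟨fun e he => (mem_powersetCard.1 (hH he)).2, ?_⟩, ?_⟩
  · by_contra hcon
    push Not at hcon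
    obtain ⟨S, hS, hSe⟩ := hcon
    have hmem : S ∈ (powersetCard k (univ : Finset (Fin M))).filter
        fun S => ∀ e ∈ H, ¬ e ⊆ S :=
      mem_filter.2 ⟨mem_powersetCard.2 ⟨subset_univ _, hS⟩, hSe⟩
    have h1 : (1 : ℝ) ≤ (((powersetCard k (univ : Finset (Fin M))).filter
        fun S => ∀ e ∈ H, ¬ e ⊆ S).card : ℝ) := by
      exact_mod_cast card_pos.2 ⟨S, hmem⟩
    have h2 : (0 : ℝ) ≤ 1 - (k.choose r : ℝ) / (M.choose r : ℝ) := by
      rw [sub_nonneg, div_le_one ha']
      exact_mod_cast Nat.choose_le_choose r hk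
    have h3 : 1 - (k.choose r : ℝ) / (M.choose r : ℝ) ≤
        Real.exp (-((k.choose r : ℝ) / (M.choose r : ℝ))) := by
      have := Real.add_one_le_exp (-((k.choose r : ℝ) / (M.choose r : ℝ)))
      linarith
    have h4 : (1 - (k.choose r : ℝ) / (M.choose r : ℝ)) ^ (⌊L⌋₊ + 1) ≤
        Real.exp (((⌊L⌋₊ + 1 : ℕ) : ℝ) * -((k.choose r : ℝ) / (M.choose r : ℝ))) := by
      rw [Real.exp_nat_mul]
      exact pow_le_pow_left₀ h2 h3 _
    have h5 : L < ((⌊L⌋₊ + 1 : ℕ) : ℝ) := by
      push_cast
      exact Nat.lt_floor_add_one L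
    have h6 : Real.log (M.choose k : ℝ) <
        ((⌊L⌋₊ + 1 : ℕ) : ℝ) * ((k.choose r : ℝ) / (M.choose r : ℝ)) := by
      have h7 : Real.log (M.choose k : ℝ) = L * ((k.choose r : ℝ) / (M.choose r : ℝ)) := by
        rw [hL]
        field_simp
      rw [h7]
      exact mul_lt_mul_of_pos_right h5 (by positivity)
    have h8 : Real.exp (((⌊L⌋₊ + 1 : ℕ) : ℝ) * -((k.choose r : ℝ) / (M.choose r : ℝ))) *
        (M.choose k : ℝ) < 1 := by
      have h9 : (M.choose k : ℝ) = Real.exp (Real.log (M.choose k : ℝ)) :=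
        (Real.exp_log (by linarith)).symm
      rw [h9, ← Real.exp_add]
      rw [Real.exp_lt_one_iff]
      linarith
    have h10 := mul_le_mul_of_nonneg_right h4 (by linarith : (0 : ℝ) ≤ (M.choose k : ℝ))
    linarith
  · have h1 : (H.card : ℝ) ≤ ((⌊L⌋₊ + 1 : ℕ) : ℝ) := by exact_mod_cast hc
    have h2 := Nat.floor_le hL0
    push_cast at h1
    linarith

end Run7.h99.TS
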