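import Pool.Agent.Run7.h282.TS.Iface

/-!
Piece `LIM` of the project TS (MP_ea5d3c_co).
-/

set_option autoImplicit false

open Finset Filter Topology

namespace Run7.h99.TS

open Run7.h282.TS

theorem lim_ratio (M r : ℕ) (A : ℝ) :
    Tendsto (fun n : ℕ => A * ((n : ℝ) / M + 1) ^ r / (n.choose r : ℝ)) atTop
      (𝓝 (A * (r.factorial : ℝ) / (M : ℝ) ^ r)) := by
  have h1 : Tendsto (fun n : ℕ => 1 / (M : ℝ) + 1 / (n : ℝ)) atTop (𝓝 (1 / (M : ℝ) + 0)) :=
    tendsto_const_nhds.add tendsto_one_div_atTop_nhds_zero_nat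
  have h2 : Tendsto (fun n : ℕ => (n.choose r : ℝ) / ((n : ℝ) ^ r / (r.factorial : ℝ))) atTop
      (𝓝 1) := by
    have h3 := isEquivalent_choose r
    rw [Asymptotics.isEquivalent_iff_tendsto_one] at h3
    · exact h3
    · filter_upwards [eventually_gt_atTop 0] with n hn
      have hn' : (0 : ℝ) < n := by exact_mod_cast hn
      positivity
  have h4 : Tendsto (fun n : ℕ => A * (1 / (M : ℝ) + 1 / (n : ℝ)) ^ r *
      ((n.choose r : ℝ) / ((n : ℝ) ^ r / (r.factorial : ℝ)))⁻¹ * (r.factorial : ℝ)) atTop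
      (𝓝 (A * (1 / (M : ℝ) + 0) ^ r * (1 : ℝ)⁻¹ * (r.factorial : ℝ))) :=
    (((h1.pow r).const_mul A).mul (h2.inv₀ one_ne_zero)).mul_const _
  have h5 : A * (1 / (M : ℝ) + 0) ^ r * (1 : ℝ)⁻¹ * (r.factorial : ℝ) =
      A * (r.factorial : ℝ) / (M : ℝ) ^ r := by
    rw [add_zero, one_div, inv_pow, inv_one, mul_one]; ring
  rw [h5] at h4
  refine h4.congr' ?_
  filter_upwards [eventually_gt_atTop 0] with n hn
  have hn' : (0 : ℝ) < n := by exact_mod_cast hn
  have hf : (0 : ℝ) < r.factorial := by exact_mod_cast r.factorial_pos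
  have h6 : (n : ℝ) / M + 1 = (1 / (M : ℝ) + 1 / (n : ℝ)) * n := by
    field_simp
  rw [h6, inv_div, mul_pow]
  field_simp

theorem t_LIM : S_LIM := by
  intro M k r A hM hr hA h
  have hM' : (0 : ℝ) < M := by exact_mod_cast hM
  have hub : ∀ n : ℕ, (T n k r : ℝ) / (n.choose r : ℝ) ≤
      A * ((n : ℝ) / M + 1) ^ r / (n.choose r : ℝ) := by
    intro n
    refine div_le_div_of_nonneg_right ?_ (Nat.cast_nonneg _)
    have h1 := h n (n / M + 1) (Nat.lt_mul_div_succ n hM).le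
    refine h1.trans (mul_le_mul_of_nonneg_left ?_ hA)
    refine pow_le_pow_left₀ (Nat.cast_nonneg _) ?_ r
    push_cast
    have := Nat.cast_div_le (α := ℝ) (m := n) (n := M)
    linarith
  have hlim := lim_ratio M r A
  have h0 : ∀ n : ℕ, 0 ≤ (T n k r : ℝ) / (n.choose r : ℝ) := fun n => by positivity
  have hbv : IsBoundedUnder (· ≤ ·) atTop
      (fun n : ℕ => A * ((n : ℝ) / M + 1) ^ r / (n.choose r : ℝ)) := hlim.isBoundedUnder_le
  have hbu : IsBoundedUnder (· ≤ ·) atTop (fun n : ℕ => (T n k r : ℝ) / (n.choose r : ℝ)) :=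
    hbv.mono_le (Eventually.of_forall hub)
  refine ⟨?_, ?_⟩
  · exact le_limsup_of_frequently_le (Frequently.of_forall h0) hbu
  · have h2 : t k r ≤ limsup (fun n : ℕ => A * ((n : ℝ) / M + 1) ^ r / (n.choose r : ℝ)) atTop :=
      limsup_le_limsup (Eventually.of_forall hub)
        (isCoboundedUnder_le_of_le atTop h0) hbv
    rwa [hlim.limsup_eq] at h2

end Run7.h99.TS
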